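import Mathlib
import Pool.Agent.R762.Mx15

/-! MP_5d9a5f_gt (Q1): every closure sequence is one of `s^n`, `c^n` (`n ≥ 3`), `(cs)^n`, `(sc)^n`
(`n ≥ 2`), in each of the two readings of condition (i).  The definitions (annuli, inscribed
circles, tangent chords, chains, `IsClosureSeq`) are in `Pool.Agent.R762.Mx4`, and
`IsClosureSeqWeak` is in `Pool.Agent.R762.Mx14`. -/

set_option autoImplicit false

namespace Pool.Agent.Results.MP_5d9a5f_gt.ClosureSequences

open Pool.Agent.R762.Mx

/-- **Classification of the closure sequences.**  In the weak reading (from every initial element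
some chain closes) and in the strong reading (every chain closes) of condition (i) the closure
sequences are exactly the words `s^n`, `c^n` with `n ≥ 3` and `(cs)^n`, `(sc)^n` with `n ≥ 2`. -/
theorem result (w : List Letter) (hne : w ≠ []) :
    (IsClosureSeqWeak w ↔
      (∃ n, 3 ≤ n ∧ (w = List.replicate n Letter.s ∨ w = List.replicate n Letter.c)) ∨
      (∃ n, 2 ≤ n ∧ (w = (List.replicate n [Letter.c, Letter.s]).flatten ∨
        w = (List.replicate n [Letter.s, Letter.c]).flatten))) ∧
    (IsClosureSeq w ↔
      (∃ n, 3 ≤ n ∧ (w = List.replicate n Letter.s ∨ w = List.replicate n Letter.c)) ∨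
      (∃ n, 2 ≤ n ∧ (w = (List.replicate n [Letter.c, Letter.s]).flatten ∨
        w = (List.replicate n [Letter.s, Letter.c]).flatten))) :=
  closure_tfae w hne

end Pool.Agent.Results.MP_5d9a5f_gt.ClosureSequences
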